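import Pool.Agent.H624CB.Strict

/-!
Cellular automata which rewrite the code words of `Pool.Agent.H624CB.Code` by a rule for three
adjacent letters.
-/

namespace Pool.Agent.Helper77.CL

open Pool.Agent.H624CA

section
attribute [local instance] Classical.propDecidable

variable {S : Type} (s0 s1 : S) (n : ℕ) (Φ : ℕ → ℕ → ℕ → ℕ)

/-- the new letter at `a`: the rule `Φ`, applied to the letters at `a - (n + 6)`, `a`,
`a + (n + 6)` (`n + 2` if there is no code word) -/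
noncomputable def Nx (x : ℤ → S) (a : ℤ) : ℕ :=
  Φ (lt s0 s1 n x (a - (n + 6))) (lt s0 s1 n x a) (lt s0 s1 n x (a + (n + 6)))

/-- the cellular automaton that rewrites all code words by the rule `Φ` and changes nothing else -/
noncomputable def gx (x : ℤ → S) : ℤ → S := fun i =>
  if h : ∃ j : ℕ, j < n + 6 ∧ lt s0 s1 n x (i - j) ≤ n + 1 then
    Wd s0 s1 (Nx s0 s1 n Φ x (i - h.choose)) h.choose else x i

variable {s0 s1 n Φ}

lemma gx_in (h01 : s0 ≠ s1) {x : ℤ → S} {a : ℤ} {j : ℕ} (hj : j < n + 6)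
    (h : lt s0 s1 n x a ≤ n + 1) : gx s0 s1 n Φ x (a + j) = Wd s0 s1 (Nx s0 s1 n Φ x a) j := by
  have h1 : ∃ j' : ℕ, j' < n + 6 ∧ lt s0 s1 n x (a + j - j') ≤ n + 1 :=
    ⟨j, hj, by rwa [add_sub_cancel_right]⟩
  unfold gx
  rw [dif_pos h1]
  have h2 : h1.choose = j := by
    refine cov_unique (i := a + j) h01 h1.choose_spec.1 hj h1.choose_spec.2 ?_
    rwa [add_sub_cancel_right]
  rw [h2, add_sub_cancel_right]

lemma gx_out {x : ℤ → S} {i : ℤ} (h : ∀ j : ℕ, j < n + 6 → lt s0 s1 n x (i - j) = n + 2) :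
    gx s0 s1 n Φ x i = x i := by
  unfold gx
  rw [dif_neg]
  rintro ⟨j, hj, h1⟩
  rw [h j hj] at h1
  omega

lemma Nx_le (hΦ : ∀ a b c, b ≤ n + 1 → Φ a b c ≤ n + 1) {x : ℤ → S} {a : ℤ}
    (h : lt s0 s1 n x a ≤ n + 1) : Nx s0 s1 n Φ x a ≤ n + 1 := hΦ _ _ _ h

/-- the letters of the image -/
lemma lt_gx (h01 : s0 ≠ s1) (hΦ : ∀ a b c, b ≤ n + 1 → Φ a b c ≤ n + 1)
    (hΦ' : ∀ a c, Φ a (n + 2) c = n + 2) {x : ℤ → S} {a : ℤ} :
    lt s0 s1 n (gx s0 s1 n Φ x) a = Nx s0 s1 n Φ x a := by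
  by_cases h : lt s0 s1 n x a ≤ n + 1
  · rw [lt_iff h01 (Nx_le hΦ h)]
    intro j hj
    exact gx_in h01 hj h
  · have h' := lt_eq_top.1 h
    have e1 : Nx s0 s1 n Φ x a = n + 2 := by
      unfold Nx
      rw [h', hΦ']
    rw [e1]
    by_contra hc
    have hc' : lt s0 s1 n (gx s0 s1 n Φ x) a ≤ n + 1 := by
      have := lt_le (s0 := s0) (s1 := s1) (n := n) (x := gx s0 s1 n Φ x) (a := a)
      omega
    have hI := (lt_iff h01 hc').1 rfl
    have hunc : ∀ j : ℕ, j < n + 6 → ∀ j' : ℕ, j' < n + 6 →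
        lt s0 s1 n x (a + j - j') = n + 2 := by
      intro j hj j' hj'
      by_contra hcc
      have h3 : lt s0 s1 n x (a + j - j') ≤ n + 1 := by
        have := lt_le (s0 := s0) (s1 := s1) (n := n) (x := x) (a := a + j - j')
        omega
      have h4 : Ic s0 s1 n (gx s0 s1 n Φ x) (a + j - j') (Nx s0 s1 n Φ x (a + j - j')) := by
        intro t ht
        exact gx_in h01 ht h3
      rcases lt_trichotomy a (a + j - j') with hh | hh | hh
      · exact Ic_no h01 hc' hh (by omega) hI h4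
      · rw [← hh] at h3; exact h h3
      · exact Ic_no h01 (Nx_le hΦ h3) hh (by omega) h4 hI
    have hIx : Ic s0 s1 n x a (lt s0 s1 n (gx s0 s1 n Φ x) a) := by
      intro j hj
      rw [← hI j hj, gx_out (hunc j hj)]
    exact h ((lt_iff h01 hc').2 hIx ▸ hc')

lemma gx_loc (h01 : s0 ≠ s1) (hΦ : ∀ a b c, b ≤ n + 1 → Φ a b c ≤ n + 1)
    (hΦ' : ∀ a c, Φ a (n + 2) c = n + 2) : Loc (gx s0 s1 n Φ) (2 * (n + 6)) := by
  refine ⟨by positivity, fun x y i hxy => ?_⟩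
  have hl : ∀ a : ℤ, i - 2 * (n + 6) ≤ a → a ≤ i + (n + 6) → lt s0 s1 n x a = lt s0 s1 n y a := by
    intro a h1 h2
    refine lt_congr h01 fun t h3 h4 => hxy t (by omega) (by omega)
  refine eq_of_lt (n := n) h01 (fun j hj => ?_) (fun hout => ?_)
  · rw [lt_gx h01 hΦ hΦ', lt_gx h01 hΦ hΦ']
    unfold Nx
    rw [hl (i - j) (by omega) (by omega), hl (i - j - (n + 6)) (by omega) (by omega),
      hl (i - j + (n + 6)) (by omega) (by omega)]
  · have o1 : ∀ j : ℕ, j < n + 6 → lt s0 s1 n x (i - j) = n + 2 := by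
      intro j hj
      by_contra hc
      have h3 : lt s0 s1 n x (i - j) ≤ n + 1 := by
        have := lt_le (s0 := s0) (s1 := s1) (n := n) (x := x) (a := i - j)
        omega
      have h4 := hout j hj
      rw [lt_gx h01 hΦ hΦ'] at h4
      have := Nx_le hΦ h3
      omega
    rw [gx_out o1, gx_out (fun j hj => by rw [← hl _ (by omega) (by omega)]; exact o1 j hj)]
    exact hxy i (by omega) (by omega)

lemma Nx_shift (h01 : s0 ≠ s1) {x : ℤ → S} {a : ℤ} :
    Nx s0 s1 n Φ (shift x) a = Nx s0 s1 n Φ x (a + 1) := by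
  unfold Nx
  rw [lt_shift h01, lt_shift h01, lt_shift h01]
  have e1 : a - ((n : ℤ) + 6) + 1 = a + 1 - (n + 6) := by ring
  have e2 : a + ((n : ℤ) + 6) + 1 = a + 1 + (n + 6) := by ring
  rw [e1, e2]

lemma gx_comm (h01 : s0 ≠ s1) : Comm (gx s0 s1 n Φ) := by
  intro x
  funext i
  by_cases hc : ∃ j : ℕ, j < n + 6 ∧ lt s0 s1 n x (i + 1 - j) ≤ n + 1
  · obtain ⟨j, hj, h1⟩ := hc
    have e1 : i = (i - j) + (j : ℤ) := by ring
    have e2 : i + 1 = (i + 1 - j) + (j : ℤ) := by ring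
    have h2 : lt s0 s1 n (shift x) (i - j) ≤ n + 1 := by
      rw [lt_shift h01]; convert h1 using 2; ring
    have l1 := gx_in (Φ := Φ) h01 hj h2
    have l2 := gx_in (Φ := Φ) h01 hj h1
    rw [← e1] at l1
    rw [← e2] at l2
    show gx s0 s1 n Φ (shift x) i = gx s0 s1 n Φ x (i + 1)
    rw [l1, l2, Nx_shift h01]
    congr 2
    ring
  · push Not at hc
    have h1 : ∀ j : ℕ, j < n + 6 → lt s0 s1 n x (i + 1 - j) = n + 2 := fun j hj =>
      lt_eq_top.1 (by have := hc j hj; omega)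
    show gx s0 s1 n Φ (shift x) i = gx s0 s1 n Φ x (i + 1)
    rw [gx_out h1, gx_out]
    · rfl
    · intro j hj
      rw [lt_shift h01, ← h1 j hj]
      congr 1
      ring

lemma gx_eq (h01 : s0 ≠ s1) {x y : ℤ → S} (hg : gx s0 s1 n Φ x = gx s0 s1 n Φ y)
    (hl : ∀ a, lt s0 s1 n x a = lt s0 s1 n y a) : x = y := by
  funext i
  refine eq_of_lt (n := n) h01 (fun j _ => hl _) fun hout => ?_
  have h1 := congrFun hg i
  rw [gx_out hout, gx_out (fun j hj => by rw [← hl]; exact hout j hj)] at h1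
  exact h1

/-- the letters at the places `a + (n + 6) k` -/
noncomputable def zx (s0 s1 : S) (n : ℕ) (x : ℤ → S) (a : ℤ) : ℤ → ℕ := fun k =>
  lt s0 s1 n x (a + (n + 6) * k)

lemma zx_gx (h01 : s0 ≠ s1) (hΦ : ∀ a b c, b ≤ n + 1 → Φ a b c ≤ n + 1)
    (hΦ' : ∀ a c, Φ a (n + 2) c = n + 2) (x : ℤ → S) (a : ℤ) :
    zx s0 s1 n (gx s0 s1 n Φ x) a = fun k =>
      Φ (zx s0 s1 n x a (k - 1)) (zx s0 s1 n x a k) (zx s0 s1 n x a (k + 1)) := by
  funext k
  unfold zx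
  rw [lt_gx h01 hΦ hΦ']
  unfold Nx
  rw [show a + ((n : ℤ) + 6) * k - (n + 6) = a + (n + 6) * (k - 1) by ring,
    show a + ((n : ℤ) + 6) * k + (n + 6) = a + (n + 6) * (k + 1) by ring]

end

end Pool.Agent.Helper77.CL
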