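import Mathlib

/-!
The rule on letters. The letters `0, …, 8` are the points of the plane over the field with three
elements, `b = 3 u + v` stands for the point `(u, v)`; all other letters are separators and do not
change. The new letter of a point has as first coordinate a number which is computed from the point
and its left neighbour, and as second coordinate a number computed from the point and its right
neighbour.
-/

namespace Pool.Agent.Helper77.CL

/-- The first coordinate of the new letter: the difference of the second coordinates of `b` and of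
its left neighbour `a` if `a` is a point; the second coordinate of `b` if `a` is the separator `9`,
and the first coordinate of `b` if `a` is any other separator. -/
def Lf (a b : ℕ) : ℕ := (if a ≤ 8 then b % 3 + 3 - a % 3 else if a = 9 then b % 3 else b / 3) % 3

/-- The second coordinate of the new letter: the difference of the first coordinates of the right
neighbour `c` and of `b` if `c` is a point; `u - v` if `c` is the separator `9`, and `u + v` if `c`
is any other separator, where `b = (u, v)`. -/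
def Rg (b c : ℕ) : ℕ :=
  (if c ≤ 8 then c / 3 + 3 - b / 3 else if c = 9 then b / 3 + 3 - b % 3 else b / 3 + b % 3) % 3

/-- The new letter at a place with the letter `b` and the neighbours `a` (on the left) and `c`. -/
def Ph (a b c : ℕ) : ℕ := if b ≤ 8 then 3 * Lf a b + Rg b c else b

/-- The map on sequences of letters. -/
def Pz (z : ℤ → ℕ) : ℤ → ℕ := fun i => Ph (z (i - 1)) (z i) (z (i + 1))

/-- the difference of the first coordinates -/
def D1 (b b' : ℕ) : ℕ := (b / 3 + 3 - b' / 3) % 3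

/-- the difference of the second coordinates -/
def D2 (b b' : ℕ) : ℕ := (b % 3 + 3 - b' % 3) % 3

lemma Lf_lt (a b : ℕ) : Lf a b < 3 := Nat.mod_lt _ (by norm_num)

lemma Rg_lt (b c : ℕ) : Rg b c < 3 := Nat.mod_lt _ (by norm_num)

lemma Ph_le {a b c : ℕ} (h : b ≤ 8) : Ph a b c ≤ 8 := by
  unfold Ph
  rw [if_pos h]
  have := Lf_lt a b
  have := Rg_lt b c
  omega

lemma Ph_big {a b c : ℕ} (h : 8 < b) : Ph a b c = b := by
  unfold Ph
  rw [if_neg (by omega)]

lemma Ph_iff {a b c : ℕ} : Ph a b c ≤ 8 ↔ b ≤ 8 := by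
  constructor
  · intro h
    by_contra hc
    rw [Ph_big (by omega)] at h
    omega
  · exact Ph_le

lemma Ph_eq {a b c a' b' c' : ℕ} (hb : b ≤ 8) (h : Ph a b c = Ph a' b' c') :
    b' ≤ 8 ∧ Lf a b = Lf a' b' ∧ Rg b c = Rg b' c' := by
  have hb' : b' ≤ 8 := by
    rw [← Ph_iff (a := a') (c := c'), ← h]
    exact Ph_le hb
  refine ⟨hb', ?_⟩
  unfold Ph at h
  rw [if_pos hb, if_pos hb'] at h
  have := Lf_lt a b
  have := Rg_lt b c
  have := Lf_lt a' b'
  have := Rg_lt b' c'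
  omega

lemma aux1 : ∀ a < 3, ∀ b < 3, ∀ a' < 3, ∀ b' < 3, (a + 3 - b) % 3 = (a' + 3 - b') % 3 →
    (b + 3 - b') % 3 = (a + 3 - a') % 3 := by decide

lemma aux2 : ∀ u < 3, ∀ v < 3, ∀ u' < 3, ∀ v' < 3, (u + 3 - v) % 3 = (u' + 3 - v') % 3 →
    ((u + 3 - u') % 3 + 3 - (v + 3 - v') % 3) % 3 = 0 := by decide

lemma aux3 : ∀ u < 3, ∀ v < 3, ∀ u' < 3, ∀ v' < 3, (u + v) % 3 = (u' + v') % 3 →
    ((u + 3 - u') % 3 + (v + 3 - v') % 3) % 3 = 0 := by decide

lemma aux4 : ∀ u < 3, ∀ u' < 3, (u + 3 - u') % 3 = 0 → u = u' := by decide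

lemma aux5 : ∀ u < 3, ∀ v < 3, ∀ u' < 3, ∀ v' < 3, ((u + 3 - v) % 3 = (u' + 3 - v') % 3 ∧
    (u + v) % 3 = (u' + v') % 3) → u = u' := by decide

lemma aux6 : ∀ u < 3, ∀ v < 3, ∀ u' < 3, ∀ v' < 3, ((u + 3 - v) % 3 = (u' + 3 - v') % 3 ∧
    (u + v) % 3 = (u' + v') % 3) → v = v' := by decide

lemma aux7 : ∀ d < 3, ∀ e < 3, (d + e) % 3 = 0 ∨ (d + 3 - e) % 3 = 0 → d = 0 ∨ e = 0 →
    d = 0 ∧ e = 0 := by decide

lemma auxD : ∀ s < 3, ∀ b < 3, ∀ c < 3, (s + 3 - b) % 3 = (s + 3 - c) % 3 → b = c := by decide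

lemma dv {b : ℕ} (hb : b ≤ 8) : b / 3 < 3 := by omega

lemma md (b : ℕ) : b % 3 < 3 := Nat.mod_lt _ (by norm_num)

lemma ext3 {b b' : ℕ} (h1 : b / 3 = b' / 3) (h2 : b % 3 = b' % 3) : b = b' := by
  rw [← Nat.div_add_mod b 3, ← Nat.div_add_mod b' 3, h1, h2]

lemma D_mid {b b' c c' : ℕ} (hb : b ≤ 8) (hb' : b' ≤ 8) (hc : c ≤ 8) (hc' : c' ≤ 8)
    (h1 : Rg b c = Rg b' c') (h2 : Lf b c = Lf b' c') : D1 b b' = D1 c c' ∧ D2 b b' = D2 c c' := by
  unfold Rg at h1
  unfold Lf at h2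
  rw [if_pos hc, if_pos hc'] at h1
  rw [if_pos hb, if_pos hb'] at h2
  exact ⟨aux1 _ (dv hc) _ (dv hb) _ (dv hc') _ (dv hb') h1, aux1 _ (md c) _ (md b) _ (md c') _ (md b') h2⟩

lemma D_self (b : ℕ) : D1 b b = 0 ∧ D2 b b = 0 := by
  unfold D1 D2
  constructor <;> simp

lemma D_zero {b b' : ℕ} (hb : b ≤ 8) (hb' : b' ≤ 8) (h : D1 b b' = 0 ∧ D2 b b' = 0) : b = b' :=
  ext3 (aux4 _ (dv hb) _ (dv hb') h.1) (aux4 _ (md b) _ (md b') h.2)

lemma D_left {a b b' : ℕ} (ha : 8 < a) (hb : b ≤ 8) (hb' : b' ≤ 8) (h : Lf a b = Lf a b') :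
    D1 b b' = 0 ∨ D2 b b' = 0 := by
  unfold Lf at h
  have ha' : ¬ a ≤ 8 := not_le.2 ha
  unfold D1 D2
  by_cases h9 : a = 9
  · simp only [ha', if_false, if_pos h9, Nat.mod_mod] at h
    right
    rw [h]
    simp
  · simp only [ha', if_false, if_neg h9] at h
    rw [Nat.mod_eq_of_lt (dv hb), Nat.mod_eq_of_lt (dv hb')] at h
    left
    rw [h]
    simp

lemma D_right {b b' c : ℕ} (hc : 8 < c) (hb : b ≤ 8) (hb' : b' ≤ 8) (h : Rg b c = Rg b' c) :
    (D1 b b' + D2 b b') % 3 = 0 ∨ (D1 b b' + 3 - D2 b b') % 3 = 0 := by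
  unfold Rg at h
  have hc' : ¬ c ≤ 8 := not_le.2 hc
  unfold D1 D2
  by_cases h9 : c = 9
  · simp only [hc', if_false, if_pos h9] at h
    exact Or.inr (aux2 _ (dv hb) _ (md b) _ (dv hb') _ (md b') h)
  · simp only [hc', if_false, if_neg h9] at h
    exact Or.inl (aux3 _ (dv hb) _ (md b) _ (dv hb') _ (md b') h)

/-- the separators do not move, and points remain points -/
lemma Pz_class {z w : ℤ → ℕ} (h : Pz z = Pz w) (k : ℤ) : (z k ≤ 8 ↔ w k ≤ 8) ∧ (8 < z k → z k = w k) := by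
  have h1 : Ph (z (k - 1)) (z k) (z (k + 1)) = Ph (w (k - 1)) (w k) (w (k + 1)) := congrFun h k
  have h2 : z k ≤ 8 ↔ w k ≤ 8 := by rw [← Ph_iff (a := z (k - 1)) (c := z (k + 1)), h1, Ph_iff]
  refine ⟨h2, fun h3 => ?_⟩
  rw [Ph_big h3, Ph_big (by omega)] at h1
  exact h1

lemma Pz_step {z w : ℤ → ℕ} (h : Pz z = Pz w) (k : ℤ) (h1 : z k ≤ 8) (h2 : z (k + 1) ≤ 8) :
    D1 (z k) (w k) = D1 (z (k + 1)) (w (k + 1)) ∧ D2 (z k) (w k) = D2 (z (k + 1)) (w (k + 1)) := by
  have e1 : Ph (z (k - 1)) (z k) (z (k + 1)) = Ph (w (k - 1)) (w k) (w (k + 1)) := congrFun h k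
  have e2 : Ph (z (k + 1 - 1)) (z (k + 1)) (z (k + 1 + 1)) =
    Ph (w (k + 1 - 1)) (w (k + 1)) (w (k + 1 + 1)) := congrFun h (k + 1)
  rw [add_sub_cancel_right] at e2
  obtain ⟨f1, f2, f3⟩ := Ph_eq h1 e1
  obtain ⟨f4, f5, f6⟩ := Ph_eq h2 e2
  exact D_mid h1 f1 h2 f4 f3 f5

lemma Pz_right {z w : ℤ → ℕ} (h : Pz z = Pz w) (k : ℤ) (h1 : z k ≤ 8) (h2 : 8 < z (k + 1)) :
    (D1 (z k) (w k) + D2 (z k) (w k)) % 3 = 0 ∨ (D1 (z k) (w k) + 3 - D2 (z k) (w k)) % 3 = 0 := by
  have e1 : Ph (z (k - 1)) (z k) (z (k + 1)) = Ph (w (k - 1)) (w k) (w (k + 1)) := congrFun h k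
  obtain ⟨f1, f2, f3⟩ := Ph_eq h1 e1
  rw [← (Pz_class h (k + 1)).2 h2] at f3
  exact D_right h2 h1 f1 f3

lemma Pz_left {z w : ℤ → ℕ} (h : Pz z = Pz w) (k : ℤ) (h1 : z k ≤ 8) (h2 : 8 < z (k - 1)) :
    D1 (z k) (w k) = 0 ∨ D2 (z k) (w k) = 0 := by
  have e1 : Ph (z (k - 1)) (z k) (z (k + 1)) = Ph (w (k - 1)) (w k) (w (k + 1)) := congrFun h k
  obtain ⟨f1, f2, f3⟩ := Ph_eq h1 e1
  rw [← (Pz_class h (k - 1)).2 h2] at f2
  exact D_left h2 h1 f1 f2

/-- asymptotic sequences with the same image are equal -/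
theorem Pz_inj {z w : ℤ → ℕ} (h : Pz z = Pz w) {N : ℤ} (hr : ∀ k, N ≤ k → z k = w k)
    (hl : ∀ k, k ≤ -N → z k = w k) : z = w := by
  have R : ∀ m : ℕ, ∀ k : ℤ, N - m ≤ k → z k ≤ 8 → (D1 (z k) (w k) = 0 ∧ D2 (z k) (w k) = 0) ∨
      (D1 (z k) (w k) + D2 (z k) (w k)) % 3 = 0 ∨
      (D1 (z k) (w k) + 3 - D2 (z k) (w k)) % 3 = 0 := by
    intro m
    induction m with
    | zero =>
      intro k hk h8
      have e := hr k (by simpa using hk)
      left
      rw [← e]
      exact D_self _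
    | succ m ih =>
      intro k hk h8
      by_cases h9 : z (k + 1) ≤ 8
      · obtain ⟨e1, e2⟩ := Pz_step h k h8 h9
        rw [e1, e2]
        exact ih (k + 1) (by push_cast at hk; omega) h9
      · exact Or.inr (Pz_right h k h8 (by omega))
  have L : ∀ m : ℕ, ∀ k : ℤ, k ≤ -N + m → z k ≤ 8 → (D1 (z k) (w k) = 0 ∧ D2 (z k) (w k) = 0) ∨
      (D1 (z k) (w k) = 0 ∨ D2 (z k) (w k) = 0) := by
    intro m
    induction m with
    | zero =>
      intro k hk h8
      have e := hl k (by simpa using hk)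
      left
      rw [← e]
      exact D_self _
    | succ m ih =>
      intro k hk h8
      by_cases h9 : z (k - 1) ≤ 8
      · have e := Pz_step h (k - 1) h9 (by rw [sub_add_cancel]; exact h8)
        rw [sub_add_cancel] at e
        rw [← e.1, ← e.2]
        exact ih (k - 1) (by push_cast at hk; omega) h9
      · exact Or.inr (Pz_left h k h8 (by omega))
  funext k
  by_cases h8 : z k ≤ 8
  · have h8' : w k ≤ 8 := ((Pz_class h k).1).1 h8
    have r := R (N - k).toNat k (by omega) h8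
    have l := L (k + N).toNat k (by omega) h8
    refine D_zero h8 h8' ?_
    rcases r with r | r
    · exact r
    · rcases l with l | l
      · exact l
      · exact aux7 _ (Nat.mod_lt _ (by norm_num)) _ (Nat.mod_lt _ (by norm_num)) r l
  · exact (Pz_class h k).2 (by omega)

lemma Pz_cst {e : ℕ} (he : e ≤ 8) : Pz (fun _ => e) = fun _ => 0 := by
  funext i
  show Ph e e e = 0
  unfold Ph Lf Rg
  rw [if_pos he, if_pos he, if_pos he]
  simp

/-- a run of zeros in the image comes from a run of one point -/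
lemma Pz_run {z : ℤ → ℕ} {a b : ℤ} (hab : a ≤ b) (h : ∀ i, a ≤ i → i ≤ b → Pz z i = 0) :
    ∃ s ≤ 8, ∀ i, a ≤ i → i ≤ b → z i = s := by
  have h8 : ∀ i, a ≤ i → i ≤ b → z i ≤ 8 := by
    intro i h1 h2
    rw [← Ph_iff (a := z (i - 1)) (c := z (i + 1))]
    have : Ph (z (i - 1)) (z i) (z (i + 1)) = 0 := h i h1 h2
    omega
  have key : ∀ m : ℕ, a + m ≤ b → z (a + m) = z a := by
    intro m
    induction m with
    | zero => intro _; simp
    | succ m ih =>
      intro hm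
      push_cast at hm ⊢
      rw [← ih (by omega)]
      have e1 : Ph (z (a + m - 1)) (z (a + m)) (z (a + m + 1)) = 0 := h (a + m) (by omega) (by omega)
      have e2 : Ph (z (a + m + 1 - 1)) (z (a + m + 1)) (z (a + m + 1 + 1)) = 0 :=
        h (a + m + 1) (by omega) (by omega)
      have c1 := h8 (a + m) (by omega) (by omega)
      have c2 := h8 (a + m + 1) (by omega) (by omega)
      rw [add_sub_cancel_right] at e2
      unfold Ph at e1 e2
      rw [if_pos c1] at e1
      rw [if_pos c2] at e2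
      have g1 : Rg (z (a + m)) (z (a + m + 1)) = 0 := by omega
      have g2 : Lf (z (a + m)) (z (a + m + 1)) = 0 := by omega
      unfold Rg at g1
      unfold Lf at g2
      rw [if_pos c2] at g1
      rw [if_pos c1] at g2
      rw [← add_assoc]
      exact ext3 (aux4 _ (dv c2) _ (dv c1) g1) (aux4 _ (md _) _ (md _) g2)
  refine ⟨z a, h8 a le_rfl hab, fun i h1 h2 => ?_⟩
  have := key (i - a).toNat (by omega)
  rwa [show a + ((i - a).toNat : ℤ) = i by omega] at this

/-- two different points are separated by one of the two functionals `u - v` and `u + v` -/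
lemma sepR {s t : ℕ} (hs : s ≤ 8) (ht : t ≤ 8) (hst : s ≠ t) :
    ∃ c, 9 ≤ c ∧ c ≤ 10 ∧ Rg s c ≠ Rg t c := by
  by_contra hc
  push Not at hc
  have h1 := hc 9 (by norm_num) (by norm_num)
  have h2 := hc 10 (by norm_num) (by norm_num)
  unfold Rg at h1 h2
  simp only [show ¬ (9 : ℕ) ≤ 8 by norm_num, if_false, if_true] at h1
  simp only [show ¬ (10 : ℕ) ≤ 8 by norm_num, show ¬ (10 : ℕ) = 9 by norm_num, if_false] at h2
  exact hst (ext3 (aux5 _ (dv hs) _ (md s) _ (dv ht) _ (md t) ⟨h1, h2⟩)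
    (aux6 _ (dv hs) _ (md s) _ (dv ht) _ (md t) ⟨h1, h2⟩))

/-- two different points are separated by one of the two coordinates -/
lemma sepL {s t : ℕ} (hs : s ≤ 8) (ht : t ≤ 8) (hst : s ≠ t) :
    ∃ c, 9 ≤ c ∧ c ≤ 10 ∧ Lf c s ≠ Lf c t := by
  by_contra hc
  push Not at hc
  have h1 := hc 9 (by norm_num) (by norm_num)
  have h2 := hc 10 (by norm_num) (by norm_num)
  unfold Lf at h1 h2
  simp only [show ¬ (9 : ℕ) ≤ 8 by norm_num, if_false, if_true, Nat.mod_mod] at h1
  simp only [show ¬ (10 : ℕ) ≤ 8 by norm_num, show ¬ (10 : ℕ) = 9 by norm_num, if_false] at h2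
  rw [Nat.mod_eq_of_lt (dv hs), Nat.mod_eq_of_lt (dv ht)] at h2
  exact hst (ext3 h2 h1)

/-- The left tails `s` and `t` are separated: `x` is `s` on the left, then a separator, then `0`. -/
lemma Pz_sepR {s t : ℕ} (hs : s ≤ 8) (ht : t ≤ 8) (hst : s ≠ t) : ∃ x : ℤ → ℕ, (∀ i, x i ≤ 10) ∧
    (∀ i, i ≤ -1 → x i = s) ∧ (∀ i, 1 ≤ i → x i = 0) ∧
    ¬ ∃ y : ℤ → ℕ, (∃ M, ∀ i, i ≤ M → y i = t) ∧ Pz y = Pz x := by
  obtain ⟨c, hc9, hc10, hsep⟩ := sepR hs ht hst
  refine ⟨fun i => if i < 0 then s else if i = 0 then c else 0, fun i => by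
    dsimp only; split_ifs <;> omega, fun i hi => by
    dsimp only; rw [if_pos (by omega)], fun i hi => by
    dsimp only; rw [if_neg (by omega), if_neg (by omega)], ?_⟩
  rintro ⟨y, ⟨M, hM⟩, hy⟩
  set x : ℤ → ℕ := fun i => if i < 0 then s else if i = 0 then c else 0 with hx
  have xneg : ∀ i, i < 0 → x i = s := fun i hi => by rw [hx]; dsimp only; rw [if_pos hi]
  have x0 : x 0 = c := by rw [hx]; dsimp only; rw [if_neg (by omega), if_pos rfl]
  have yle : ∀ i, i < 0 → y i ≤ 8 := fun i hi => ((Pz_class hy i).1).2 (by rw [xneg i hi]; exact hs)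
  have y0 : y 0 = c := by
    have := (Pz_class hy.symm 0).2 (by rw [x0]; omega)
    rw [← this, x0]
  have step : ∀ i, i + 1 < 0 → y i = y (i + 1) := by
    intro i hi
    have := Pz_step hy.symm i (by rw [xneg i (by omega)]; exact hs)
      (by rw [xneg (i + 1) hi]; exact hs)
    rw [xneg i (by omega), xneg (i + 1) hi] at this
    have a1 := yle i (by omega)
    have a2 := yle (i + 1) hi
    obtain ⟨t1, t2⟩ := this
    exact ext3 (auxD _ (dv hs) _ (dv a1) _ (dv a2) t1) (auxD _ (md s) _ (md _) _ (md _) t2)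
  have all : ∀ m : ℕ, y (-1 - m) = y (-1) := by
    intro m
    induction m with
    | zero => simp
    | succ m ih =>
      rw [← ih]
      have := step (-1 - ((m + 1 : ℕ) : ℤ)) (by push_cast; omega)
      rw [this]
      congr 1
      push_cast
      ring
  have yt : y (-1) = t := by
    have h1 := all (-1 - min M (-1)).toNat
    rw [← h1]
    refine hM _ ?_
    have := min_le_left M (-1)
    have := min_le_right M (-1)
    omega
  have e : Ph (y (-1 - 1)) (y (-1)) (y (-1 + 1)) = Ph (x (-1 - 1)) (x (-1)) (x (-1 + 1)) :=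
    congrFun hy (-1)
  obtain ⟨-, -, e3⟩ := Ph_eq (yle (-1) (by omega)) e
  rw [yt, xneg (-1) (by omega), show (-1 : ℤ) + 1 = 0 by norm_num, y0, x0] at e3
  exact hsep e3.symm

/-- The right tails `s` and `t` are separated: `x` is `0` on the left, then a separator, then `s`. -/
lemma Pz_sepL {s t : ℕ} (hs : s ≤ 8) (ht : t ≤ 8) (hst : s ≠ t) : ∃ x : ℤ → ℕ, (∀ i, x i ≤ 10) ∧
    (∀ i, 1 ≤ i → x i = s) ∧ (∀ i, i ≤ -1 → x i = 0) ∧
    ¬ ∃ y : ℤ → ℕ, (∃ M, ∀ i, M ≤ i → y i = t) ∧ Pz y = Pz x := by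
  obtain ⟨c, hc9, hc10, hsep⟩ := sepL hs ht hst
  refine ⟨fun i => if 0 < i then s else if i = 0 then c else 0, fun i => by
    dsimp only; split_ifs <;> omega, fun i hi => by
    dsimp only; rw [if_pos (by omega)], fun i hi => by
    dsimp only; rw [if_neg (by omega), if_neg (by omega)], ?_⟩
  rintro ⟨y, ⟨M, hM⟩, hy⟩
  set x : ℤ → ℕ := fun i => if 0 < i then s else if i = 0 then c else 0 with hx
  have xpos : ∀ i, 0 < i → x i = s := fun i hi => by rw [hx]; dsimp only; rw [if_pos hi]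
  have x0 : x 0 = c := by rw [hx]; dsimp only; rw [if_neg (by omega), if_pos rfl]
  have yle : ∀ i, 0 < i → y i ≤ 8 := fun i hi => ((Pz_class hy i).1).2 (by rw [xpos i hi]; exact hs)
  have y0 : y 0 = c := by
    have := (Pz_class hy.symm 0).2 (by rw [x0]; omega)
    rw [← this, x0]
  have step : ∀ i, 0 < i → y i = y (i + 1) := by
    intro i hi
    have := Pz_step hy.symm i (by rw [xpos i (by omega)]; exact hs)
      (by rw [xpos (i + 1) (by omega)]; exact hs)
    rw [xpos i (by omega), xpos (i + 1) (by omega)] at this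
    have a1 := yle i (by omega)
    have a2 := yle (i + 1) (by omega)
    obtain ⟨t1, t2⟩ := this
    exact ext3 (auxD _ (dv hs) _ (dv a1) _ (dv a2) t1) (auxD _ (md s) _ (md _) _ (md _) t2)
  have all : ∀ m : ℕ, y (1 + m) = y 1 := by
    intro m
    induction m with
    | zero => simp
    | succ m ih =>
      rw [← ih, step (1 + (m : ℤ)) (by omega)]
      congr 1
  have yt : y 1 = t := by
    have h1 := all (max M 1 - 1).toNat
    rw [← h1]
    refine hM _ ?_
    have := le_max_left M 1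
    have := le_max_right M 1
    omega
  have e : Ph (y (1 - 1)) (y 1) (y (1 + 1)) = Ph (x (1 - 1)) (x 1) (x (1 + 1)) := congrFun hy 1
  obtain ⟨-, e2, -⟩ := Ph_eq (yle 1 (by omega)) e
  rw [yt, xpos 1 (by omega), show (1 : ℤ) - 1 = 0 by norm_num, y0, x0] at e2
  exact hsep e2.symm

end Pool.Agent.Helper77.CL
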