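import Pool.Agent.Helper77.CL.Gen
import Pool.Agent.Helper77.CL.Letters

/-!
A surjective cellular automaton which is not a composition of one-sided closing cellular automata.
-/

namespace Pool.Agent.Helper77.CL

open Pool.Agent.H624CA

section
attribute [local instance] Classical.propDecidable

variable {S : Type} {s0 s1 : S} {n : ℕ}

lemma hP1 (hn : 9 ≤ n) : ∀ a b c, b ≤ n + 1 → Ph a b c ≤ n + 1 := by
  intro a b c h
  by_cases h8 : b ≤ 8
  · have := Ph_le (a := a) (c := c) h8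
    omega
  · rw [Ph_big (by omega)]
    exact h

lemma hP2 (hn : 9 ≤ n) : ∀ a c, Ph a (n + 2) c = n + 2 := fun a c => Ph_big (by omega)

/-- asymptotic configurations with the same image are equal -/
lemma gx_preinj (h01 : s0 ≠ s1) (hn : 9 ≤ n) {x y : ℤ → S} {N : ℤ}
    (hN : ∀ i, (i ≤ -N ∨ N ≤ i) → x i = y i) (h : gx s0 s1 n Ph x = gx s0 s1 n Ph y) : x = y := by
  refine gx_eq h01 h fun a => ?_
  have e : Pz (zx s0 s1 n x a) = Pz (zx s0 s1 n y a) := by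
    have e1 := zx_gx h01 (hP1 hn) (hP2 hn) x a
    have e2 := zx_gx h01 (hP1 hn) (hP2 hn) y a
    rw [h, e2] at e1
    exact e1.symm
  have e3 : zx s0 s1 n x a = zx s0 s1 n y a := by
    refine Pz_inj e (N := |N| + |a| + n + 6) ?_ ?_
    · intro k hk
      refine lt_congr h01 fun i h1 h2 => hN i (Or.inr ?_)
      have t1 := le_abs_self N
      have t2 := neg_abs_le a
      have t3 := abs_nonneg N
      have t4 := abs_nonneg a
      nlinarith
    · intro k hk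
      refine lt_congr h01 fun i h1 h2 => hN i (Or.inl ?_)
      have t1 := le_abs_self N
      have t2 := le_abs_self a
      have t3 := abs_nonneg N
      have t4 := abs_nonneg a
      nlinarith
  have := congrFun e3 0
  unfold zx at this
  rwa [mul_zero, add_zero] at this

lemma gx_isCA (h01 : s0 ≠ s1) (hn : 9 ≤ n) : IsCA (gx s0 s1 n Ph) :=
  isCA_of (gx_loc h01 (hP1 hn) (hP2 hn)) (gx_comm h01)

lemma gx_surj [Finite S] (h01 : s0 ≠ s1) (hn : 9 ≤ n) : Function.Surjective (gx s0 s1 n Ph) := by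
  refine myhill (gx_loc h01 (hP1 hn) (hP2 hn)) (gx_comm h01) fun x y ⟨N, hN⟩ hxy => ?_
  exact gx_preinj h01 hn (N := N) (fun i hi => hN i (by tauto)) hxy

lemma zl_gx (h01 : s0 ≠ s1) (hn : 9 ≤ n) (x : ℤ → S) :
    zl s0 s1 n (gx s0 s1 n Ph x) = Pz (zl s0 s1 n x) := by
  have h := zx_gx h01 (hP1 hn) (hP2 hn) x 0
  have e : ∀ w : ℤ → S, zl s0 s1 n w = zx s0 s1 n w 0 := by
    intro w
    funext k
    unfold zl zx
    rw [zero_add]
    congr 1
  rw [e, e, h]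
  rfl

lemma hat_iff (h01 : s0 ≠ s1) (hn : 9 ≤ n) {X : ℤ → (Fin (n + 6) → S)} {i : ℤ} {e : ℕ}
    (he : e ≤ n + 1) : hatl (n + 6) (gx s0 s1 n Ph) X i = Wb s0 s1 n e ↔
      Pz (zl s0 s1 n (Bil (n + 6) X)) i = e := by
  rw [← zl_gx h01 hn]
  show Bll (n + 6) (gx s0 s1 n Ph (Bil (n + 6) X)) i = _ ↔ _
  rw [Bll_eq]
  exact (lt_iff h01 he).symm

lemma hat_Pz (h01 : s0 ≠ s1) (hn : 9 ≤ n) {X Y : ℤ → (Fin (n + 6) → S)}
    (h : hatl (n + 6) (gx s0 s1 n Ph) Y = hatl (n + 6) (gx s0 s1 n Ph) X) :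
    Pz (zl s0 s1 n (Bil (n + 6) Y)) = Pz (zl s0 s1 n (Bil (n + 6) X)) := by
  rw [← zl_gx h01 hn, ← zl_gx h01 hn]
  have := Bll_inj h
  rw [this]

lemma Wb_inj (h01 : s0 ≠ s1) {i j : ℕ} (hi : i ≤ n + 1) (h : Wb s0 s1 n i = Wb s0 s1 n j) :
    i = j := by
  have h1 := congrFun h ⟨i + 3, by omega⟩
  have h2 : Wd s0 s1 i (i + 3) = Wd s0 s1 j (i + 3) := h1
  rw [(Wd_eq h01).2 (by omega)] at h2
  have := (Wd_eq h01).1 h2.symm
  omega

/-- the code words of the nine points, as block letters -/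
def PP (s0 s1 : S) (n : ℕ) : Set (Fin (n + 6) → S) := {a | ∃ e ≤ 8, a = Wb s0 s1 n e}

theorem data (h01 : s0 ≠ s1) (hn : 9 ≤ n) :
    Data (hatl (n + 6) (gx s0 s1 n Ph)) (Wb s0 s1 n 0) (PP s0 s1 n) where
  A0 := by
    rintro _ ⟨e, he, rfl⟩
    funext k
    refine (hat_iff h01 hn (by omega)).2 ?_
    have : zl s0 s1 n (Bil (n + 6) (cst (Wb s0 s1 n e))) = fun _ => e :=
      zl_Wb h01 (x := fun _ => e) (fun _ => by omega)
    rw [this, Pz_cst he]
  A1 := by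
    intro X a b hab h
    obtain ⟨s, hs, hst⟩ := Pz_run (z := zl s0 s1 n (Bil (n + 6) X)) hab
      fun i h1 h2 => (hat_iff h01 hn (by omega)).1 (h i h1 h2)
    exact ⟨Wb s0 s1 n s, ⟨s, hs, rfl⟩, fun i h1 h2 => (zl_eq h01 (by omega)).2 (hst i h1 h2)⟩
  A2R := by
    rintro _ ⟨s, hs, rfl⟩ _ ⟨t, ht, rfl⟩ hst
    obtain ⟨x, hx, h1, h2, h3⟩ := Pz_sepR hs ht (fun h => hst (by rw [h]))
    refine ⟨fun i => Wb s0 s1 n (x i), Wb s0 s1 n 0, ⟨0, by omega, rfl⟩,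
      ⟨1, fun a ha => by simp only [h2 a ha]⟩, Or.inl ⟨⟨-1, fun a ha => by simp only [h1 a ha]⟩, ?_⟩⟩
    rintro ⟨Y, ⟨M, hM⟩, hY⟩
    refine h3 ⟨zl s0 s1 n (Bil (n + 6) Y),
      ⟨M, fun a ha => (zl_eq h01 (by omega)).1 (hM a ha)⟩, ?_⟩
    rw [hat_Pz h01 hn hY, zl_Wb h01 (fun a => by have := hx a; omega)]
  A2L := by
    rintro _ ⟨s, hs, rfl⟩ _ ⟨t, ht, rfl⟩ hst
    obtain ⟨x, hx, h1, h2, h3⟩ := Pz_sepL hs ht (fun h => hst (by rw [h]))
    refine ⟨fun i => Wb s0 s1 n (x i), Wb s0 s1 n 0, ⟨0, by omega, rfl⟩,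
      ⟨-1, fun a ha => by simp only [h2 a ha]⟩, Or.inl ⟨⟨1, fun a ha => by simp only [h1 a ha]⟩, ?_⟩⟩
    rintro ⟨Y, ⟨M, hM⟩, hY⟩
    refine h3 ⟨zl s0 s1 n (Bil (n + 6) Y),
      ⟨M, fun a ha => (zl_eq h01 (by omega)).1 (hM a ha)⟩, ?_⟩
    rw [hat_Pz h01 hn hY, zl_Wb h01 (fun a => by have := hx a; omega)]

lemma comp_of_compN {A : Type} {m : ℕ} {h : (ℤ → A) → (ℤ → A)} (H : CompN m h) : Comp h := by
  induction H with
  | id => exact Comp.id
  | step m g h Lg Cg sg hg _ ih => exact Comp.step g h Lg Cg sg hg ih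

/-- the automaton is in no level of the closing hierarchy -/
theorem not_lev [Finite S] (h01 : s0 ≠ s1) (hn : 9 ≤ n) (k : ℕ) (b : Bool) :
    gx s0 s1 n Ph ∉ Lev S k b := by
  intro hf
  refine not_comp (data h01 hn) (s := Wb s0 s1 n 0) (t := Wb s0 s1 n 1) ⟨0, by omega, rfl⟩
    ⟨1, by omega, rfl⟩ (fun h => ?_) (comp_of_compN (compN_of_lev k b _ hf))
  have := Wb_inj h01 (n := n) (by omega) h
  omega

lemma hat_foldr [Finite S] (l : ℕ) [NeZero l] (gs : List ((ℤ → S) → (ℤ → S)))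
    (h : ∀ g ∈ gs, IsCA g ∧ (LeftClosing g ∨ RightClosing g)) :
    Comp (hatl l (gs.foldr (· ∘ ·) id)) := by
  induction gs with
  | nil =>
    rw [List.foldr_nil, hatl_id]
    exact Comp.id
  | cons g gs ih =>
    rw [List.foldr_cons, hatl_comp]
    obtain ⟨hg, hc⟩ := h g (List.mem_cons_self ..)
    obtain ⟨r, L⟩ := loc_of_cont hg.cont hg.comm
    exact Comp.step _ _ ⟨_, hatl_loc L⟩ (hatl_comm hg.comm) (hatl_surj (closing_surj' hg hc.symm))
      (hc.symm.imp hatl_right hatl_left) (ih fun g' hg' => h g' (List.mem_cons_of_mem _ hg'))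

/-- the automaton is no composition of finitely many one-sided closing cellular automata -/
theorem not_foldr [Finite S] (h01 : s0 ≠ s1) (hn : 9 ≤ n) (gs : List ((ℤ → S) → (ℤ → S)))
    (h : ∀ g ∈ gs, IsCA g ∧ (LeftClosing g ∨ RightClosing g)) :
    gs.foldr (· ∘ ·) id ≠ gx s0 s1 n Ph := by
  intro he
  have hc := hat_foldr (n + 6) gs h
  rw [he] at hc
  refine not_comp (data h01 hn) (s := Wb s0 s1 n 0) (t := Wb s0 s1 n 1) ⟨0, by omega, rfl⟩
    ⟨1, by omega, rfl⟩ (fun h => ?_) hc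
  have := Wb_inj h01 (n := n) (by omega) h
  omega

end

end Pool.Agent.Helper77.CL
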